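import Pool.Agent.Helper33_CM.Ord

/-!
# CM project (MP_31342c_an), module ADP: adapted basis of a unipotent lattice
-/

set_option autoImplicit false
set_option linter.unusedSectionVars false

noncomputable section

namespace Pool.Agent.Helper95_CM.H33

open MvPolynomial

section const
variable {R : Type} [CommRing R]

lemma coeff_mul_C (x : LaurentSeries R) (b : R) (m : ℤ) :
    (x * HahnSeries.C b).coeff m = x.coeff m * b := by
  rw [mul_comm, HahnSeries.C_mul_eq_smul, HahnSeries.coeff_smul, smul_eq_mul, mul_comm]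

lemma coeff_C_mul (x : LaurentSeries R) (b : R) (m : ℤ) :
    (HahnSeries.C b * x).coeff m = b * x.coeff m := by
  rw [HahnSeries.C_mul_eq_smul, HahnSeries.coeff_smul, smul_eq_mul]

lemma tht_mul_C (x : LaurentSeries R) (b : R) :
    tht R (x * HahnSeries.C b) = tht R x * HahnSeries.C b := by
  ext m
  rw [tht_coeff, coeff_mul_C, coeff_mul_C, tht_coeff, mul_assoc]

end const

theorem adp (hlina : LinaStmt) (hspg : SpgStmt) (hcvf : CvfStmt) : AdpStmt := by
  classical
  intro n M D A K _ _ f U Ui Rv ξ hG hU hξG hξ0 hξ1 hVi hC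
  obtain ⟨⟨S, hS⟩, hkF, -, -, -, -, -, -⟩ := hspg (qG n M) K
  obtain ⟨-, hCv0, -, -⟩ := hcvf n M D A K f U Ui Rv hG hU
  -- the functional and the vector
  let α : A.Bas → OO (qG n M) K := fun j => (Cv A D f U j).coeff 0
  let x0 : A.Bas → kF (qG n M) K := fun j => ⟨(ξ j).coeff 0, (hξG j).2 0⟩
  have hα : ∑ j, α j * (x0 j : OO (qG n M) K) = 1 := by
    rw [← hC, HahnSeries.coeff_sum]
    refine Finset.sum_congr rfl (fun j _ => ?_)
    have h1 := coeff_zero_mul_mod (0 : OO (qG n M) K) (Cv A D f U j) (ξ j)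
      (fun m hm => by rw [hCv0 j m hm]) (fun m hm => by rw [hξ0 j m hm])
    exact (sub_eq_zero.1 (zero_dvd_iff.1 h1)).symm
  obtain ⟨B, Bi, i1, Lo, hBBi, hBiB, hi1, hBx, hLo, hLI⟩ :=
    hlina (OO (qG n M) K) (kF (qG n M) K) A.Bas α x0 hα
  let b : Matrix A.Bas A.Bas (OO (qG n M) K) := B.map (kF (qG n M) K).subtype
  let bi : Matrix A.Bas A.Bas (OO (qG n M) K) := Bi.map (kF (qG n M) K).subtype
  have hbbi : b * bi = 1 := by
    show B.map (kF (qG n M) K).subtype * Bi.map (kF (qG n M) K).subtype = 1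
    rw [← Matrix.map_mul, hBBi, Matrix.map_one _ (map_zero _) (map_one _)]
  have hbib : bi * b = 1 := by
    show Bi.map (kF (qG n M) K).subtype * B.map (kF (qG n M) K).subtype = 1
    rw [← Matrix.map_mul, hBiB, Matrix.map_one _ (map_zero _) (map_one _)]
  let c : OO (qG n M) K →+* LL (qG n M) K := HahnSeries.C
  let B' : Matrix A.Bas A.Bas (LL (qG n M) K) := b.map c
  let Bi' : Matrix A.Bas A.Bas (LL (qG n M) K) := bi.map c
  have h1 : B' * Bi' = 1 := by
    show b.map c * bi.map c = 1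
    rw [← Matrix.map_mul, hbbi, Matrix.map_one _ (map_zero _) (map_one _)]
  have h2 : Bi' * B' = 1 := by
    show bi.map c * b.map c = 1
    rw [← Matrix.map_mul, hbib, Matrix.map_one _ (map_zero _) (map_one _)]
  have hB'G : ∀ i j, InG (B' i j) := fun i j => hkF _ (B i j).2
  have hBi'G : ∀ i j, InG (Bi' i j) := fun i j => hkF _ (Bi i j).2
  have hGmul : ∀ {I J L : Type} [Fintype J] (X : Matrix I J (LL (qG n M) K))
      (Y : Matrix J L (LL (qG n M) K)), (∀ i j, InG (X i j)) → (∀ i j, InG (Y i j)) →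
      ∀ i j, InG ((X * Y) i j) := by
    intro I J L _ X Y hX hY i j
    rw [Matrix.mul_apply, ← hS]
    exact sum_mem (fun k _ => mul_mem ((hS _).2 (hX i k)) ((hS _).2 (hY k j)))
  have hBord : ∀ i j, OrdGe 0 (B' i j) := fun i j => ordGe_C _
  have hBiord : ∀ i j, OrdGe 0 (Bi' i j) := fun i j => ordGe_C _
  have hpmul : ∀ (X Y : Matrix A.Bas A.Bas (LL (qG n M) K)), PolF X → PolF Y → PolF (X * Y) := by
    intro X Y hX hY i j
    rw [Matrix.mul_apply]
    refine ordGe_sum _ _ (fun k _ => ?_)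
    have := ordGe_mul (hX i k) (hY k j)
    rwa [add_zero] at this
  -- `mco 0`
  have hmco : mco 0 (Bi' * Rv * B') = bi * mco 0 Rv * b := by
    ext1 i j
    show (((Bi' * Rv * B') i j).coeff 0) = (bi * mco 0 Rv * b) i j
    simp only [Matrix.mul_apply, mco, Matrix.map_apply]
    rw [HahnSeries.coeff_sum]
    refine Finset.sum_congr rfl (fun k _ => ?_)
    show ((∑ l, Bi' i l * Rv l k) * HahnSeries.C (b k j)).coeff 0 = _
    rw [coeff_mul_C, HahnSeries.coeff_sum]
    congr 1
    refine Finset.sum_congr rfl (fun l _ => ?_)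
    exact coeff_C_mul _ _ _
  have hpow : ∀ m : ℕ, (bi * mco 0 Rv * b) ^ m = bi * (mco 0 Rv) ^ m * b := by
    intro m
    induction m with
    | zero => rw [pow_zero, pow_zero, Matrix.mul_one, hbib]
    | succ m ih =>
      rw [pow_succ, ih, pow_succ]
      calc bi * mco 0 Rv ^ m * b * (bi * mco 0 Rv * b)
          = bi * mco 0 Rv ^ m * (b * bi) * mco 0 Rv * b := by simp only [Matrix.mul_assoc]
        _ = bi * (mco 0 Rv ^ m * mco 0 Rv) * b := by
          rw [hbbi, Matrix.mul_one]; simp only [Matrix.mul_assoc]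
  have hd : (U * B').map (thLt (qG n M) K) = U.map (thLt (qG n M) K) * B' := by
    ext1 i j
    simp only [Matrix.map_apply, Matrix.mul_apply, map_sum]
    refine Finset.sum_congr rfl (fun k _ => ?_)
    exact tht_mul_C _ _
  have hCv1 : ∀ j, (Cv A D f (U * B') j).coeff 0 = ∑ k, α k * (B k j : OO (qG n M) K) := by
    intro j
    have h3 : Cv A D f (U * B') j = ∑ k, Cv A D f U k * B' k j := by
      unfold Cv
      simp only [Matrix.mul_apply, Finset.mul_sum, Finset.sum_mul]
      rw [Finset.sum_comm]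
      refine Finset.sum_congr rfl (fun k _ => Finset.sum_congr rfl (fun s _ => ?_))
      ring
    rw [h3, HahnSeries.coeff_sum]
    refine Finset.sum_congr rfl (fun k _ => ?_)
    exact coeff_mul_C _ _ _
  refine ⟨U * B', Bi' * Ui, Bi' * Rv * B', fun i => ∑ j, Bi' i j * ξ j, i1, Lo, ?_, ?_, ?_, ?_, ?_,
    ?_, hi1, ?_, ?_⟩
  · refine ⟨⟨?_, ?_, ?_⟩, ?_, ?_, ?_, ?_, ?_, ?_⟩
    · calc U * B' * (Bi' * Ui) = U * (B' * Bi') * Ui := by simp only [Matrix.mul_assoc]
        _ = 1 := by rw [h1, Matrix.mul_one, hU.gau.inv]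
    · calc Bi' * Ui * (U * B') = Bi' * (Ui * U) * B' := by simp only [Matrix.mul_assoc]
        _ = 1 := by rw [hU.gau.inv', Matrix.mul_one, h2]
    · rw [hd]
      calc U.map (thLt (qG n M) K) * B' + Rm A (thLt (qG n M) K) (cgen D f) * (U * B')
          = (U.map (thLt (qG n M) K) + Rm A (thLt (qG n M) K) (cgen D f) * U) * B' := by
            rw [Matrix.add_mul, Matrix.mul_assoc]
        _ = U * Rv * B' := by rw [hU.gau.eq]
        _ = U * (B' * Bi') * Rv * B' := by rw [h1, Matrix.mul_one]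
        _ = U * B' * (Bi' * Rv * B') := by simp only [Matrix.mul_assoc]
    · exact hGmul U B' hU.gU hB'G
    · exact hGmul Bi' Ui hBi'G hU.gUi
    · exact hGmul _ _ (hGmul _ _ hBi'G hU.gR) hB'G
    · exact hpmul _ _ (hpmul _ _ hBiord hU.pf) hBord
    · rw [hmco, hpow, hU.nil, Matrix.mul_zero, Matrix.zero_mul]
    · obtain ⟨a, ha⟩ := hU.lp
      refine ⟨a, fun i j m hm => ?_⟩
      rw [Matrix.mul_apply, HahnSeries.coeff_sum]
      refine Finset.sum_eq_zero (fun k _ => ?_)
      show (U i k * HahnSeries.C (b k j)).coeff m = 0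
      rw [coeff_mul_C, ha i k m hm, zero_mul]
  · intro i
    rw [← hS]
    exact sum_mem (fun k _ => mul_mem ((hS _).2 (hBi'G i k)) ((hS _).2 (hξG k)))
  · intro i
    refine ordGe_sum _ _ (fun k _ => ?_)
    have := ordGe_mul (hBiord i k) (hξ0 k)
    rwa [add_zero] at this
  · intro i
    rw [HahnSeries.coeff_sum]
    have h3 : ∀ j, (Bi' i j * ξ j).coeff 0 = ((Bi i j * B j i1 : kF (qG n M) K) : OO (qG n M) K) := by
      intro j
      rw [hBx j]
      exact coeff_C_mul _ _ _
    rw [Finset.sum_congr rfl (fun j _ => h3 j)]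
    have h4 : (∑ j, ((Bi i j * B j i1 : kF (qG n M) K) : OO (qG n M) K)) =
        (((Bi * B) i i1 : kF (qG n M) K) : OO (qG n M) K) := by
      rw [Matrix.mul_apply]
      exact (map_sum (kF (qG n M) K).subtype (fun j => Bi i j * B j i1) Finset.univ).symm
    rw [h4, hBiB, Matrix.one_apply]
    split_ifs
    · rfl
    · rfl
  · have h3 : (∑ j, (U * B') (topI A) j * ∑ k, Bi' j k * ξ k) = ∑ j, U (topI A) j * ξ j := by
      have h4 := congrFun (Matrix.mulVec_mulVec ξ (U * B') Bi') (topI A)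
      rw [Matrix.mul_assoc, h1, Matrix.mul_one] at h4
      exact h4
    rw [h3]
    exact hξ1
  · intro j
    rw [Matrix.mul_apply]
    refine ordGe_sum _ _ (fun k _ => ?_)
    have := ordGe_mul (hBiord j k) (hVi k)
    rwa [add_zero] at this
  · intro i hi
    rw [hCv1, hLo i hi]
  · have h3 : (fun j : {j : A.Bas // j = i1 ∨ j ∉ Lo} => (Cv A D f (U * B') j.1).coeff 0) =
        fun j : {j : A.Bas // j = i1 ∨ j ∉ Lo} => ∑ j', α j' * (B j' j.1 : OO (qG n M) K) := by
      funext j
      exact hCv1 j.1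
    rw [h3]
    exact hLI

end Pool.Agent.Helper95_CM.H33

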