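import Pool.Agent.Helper33_CM.Ord

/-!
# CM project (MP_31342c_an): CHIK (helper33)
-/

set_option autoImplicit false
set_option linter.unusedSectionVars false

noncomputable section

namespace Pool.Agent.Helper95_CM.H33

/-- a matrix killed by `(X^p - X)^m` in characteristic `p`: the characteristic polynomial has
coefficients in the prime field -/
lemma charpoly_lifts {k : Type} [Field k] (p : ℕ) [Fact p.Prime] (f : ZMod p →+* k) {I : Type}
    [Fintype I] [DecidableEq I] (N : Matrix I I k) (m : ℕ) (h : (N ^ p - N) ^ m = 0) :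
    N.charpoly ∈ Polynomial.lifts f := by
  classical
  let A := AlgebraicClosure k
  let g : k →+* A := algebraMap k A
  have : CharP k p := by
    have : CharP (ZMod p) p := ZMod.charP p
    exact (RingHom.charP_iff f f.injective p).1 inferInstance
  have : CharP A p := (RingHom.charP_iff g g.injective p).1 inferInstance
  have hroot : ∀ μ ∈ (N.charpoly.map g).roots, ∃ a : ZMod p, g (f a) = μ := by
    intro μ hμ
    rw [Polynomial.mem_roots'] at hμ
    have h1 : (N.map g).charpoly.IsRoot μ := by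
      rw [Matrix.charpoly_map]
      exact hμ.2
    have h2 : μ ∈ spectrum A (N.map g) := Matrix.mem_spectrum_of_isRoot_charpoly h1
    have h3 := spectrum.subset_polynomial_aeval (N.map g)
      ((Polynomial.X ^ p - Polynomial.X) ^ m : Polynomial A) ⟨μ, h2, rfl⟩
    have h4 : Polynomial.aeval (N.map g) ((Polynomial.X ^ p - Polynomial.X) ^ m : Polynomial A)
        = 0 := by
      rw [map_pow, map_sub, map_pow, Polynomial.aeval_X]
      have h5 : ((N ^ p - N) ^ m).map g = ((N.map g) ^ p - N.map g) ^ m := by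
        show (g.mapMatrix (m := I)) ((N ^ p - N) ^ m) = ((g.mapMatrix (m := I)) N ^ p - (g.mapMatrix (m := I)) N) ^ m
        rw [map_pow, map_sub, map_pow]
      rw [← h5, h]
      ext i j
      simp
    rw [h4] at h3
    have h6 : Nonempty I := by
      by_contra hI
      rw [not_nonempty_iff] at hI
      simp [Matrix.charpoly] at hμ
    have : Nontrivial (Matrix I I A) := inferInstance
    rw [spectrum.zero_eq] at h3
    have h7 : (μ ^ p - μ) ^ m = 0 := by
      simpa using h3
    have h8 : μ ^ p = μ := by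
      have := eq_zero_of_pow_eq_zero h7
      exact sub_eq_zero.1 this
    have h9 : μ ∈ (⊥ : Subfield A) := (Subfield.mem_bot_iff_pow_eq_self A p).2 h8
    have h10 : (⊥ : Subfield A) ≤ (g.comp f).fieldRange := bot_le
    obtain ⟨a, ha⟩ := h10 h9
    exact ⟨a, ha⟩
  have hs : (N.charpoly.map g).Splits := IsAlgClosed.splits _
  have hm : (N.charpoly.map g).Monic := (Matrix.charpoly_monic N).map g
  have hlift : N.charpoly.map g ∈ Polynomial.lifts (g.comp f) := by
    rw [hs.eq_prod_roots_of_monic hm]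
    refine Subsemiring.multiset_prod_mem _ _ ?_
    intro x hx
    rw [Multiset.mem_map] at hx
    obtain ⟨μ, hμ, rfl⟩ := hx
    obtain ⟨a, ha⟩ := hroot μ hμ
    rw [Polynomial.mem_lifts]
    refine ⟨Polynomial.X - Polynomial.C a, ?_⟩
    rw [Polynomial.map_sub, Polynomial.map_X, Polynomial.map_C]
    rw [RingHom.comp_apply, ha]
  rw [Polynomial.lifts_iff_coeff_lifts] at hlift ⊢
  intro n
  obtain ⟨a, ha⟩ := hlift n
  refine ⟨a, g.injective ?_⟩
  rw [Polynomial.coeff_map] at ha
  exact ha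

section good
variable {R : Type} [CommRing R]

lemma cC_zero {G : Type} [AddCommGroup G] [LinearOrder G] [IsOrderedAddMonoid G] (a : R) :
    (HahnSeries.C a : HahnSeries G R).coeff 0 = a := by
  rw [HahnSeries.C_apply, HahnSeries.coeff_single_same]

lemma cC_ne {G : Type} [AddCommGroup G] [LinearOrder G] [IsOrderedAddMonoid G] (a : R) {g : G}
    (hg : g ≠ 0) : (HahnSeries.C a : HahnSeries G R).coeff g = 0 := by
  rw [HahnSeries.C_apply, HahnSeries.coeff_single_of_ne hg]

lemma coeff_zero_mul {x y : LaurentSeries R} (hx : OrdGe 0 x) (hy : OrdGe 0 y) :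
    (x * y).coeff 0 = x.coeff 0 * y.coeff 0 := by
  classical
  rw [HahnSeries.coeff_mul]
  rw [Finset.sum_eq_single ((0, 0) : ℤ × ℤ)]
  · intro b hb hb0
    rw [Finset.mem_antidiagonal] at hb
    obtain ⟨_, _, h3⟩ := hb
    by_cases h : b.1 < 0
    · rw [hx _ h, zero_mul]
    · by_cases h' : b.2 < 0
      · rw [hy _ h', mul_zero]
      · exfalso
        apply hb0
        have h1 : b.1 = 0 := by omega
        have h2 : b.2 = 0 := by omega
        exact Prod.ext h1 h2
  · intro h
    rw [Finset.mem_antidiagonal] at h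
    by_contra hne
    apply h
    refine ⟨?_, ?_, by simp⟩
    · show x.coeff 0 ≠ 0
      intro h0
      exact hne (by rw [h0, zero_mul])
    · show y.coeff 0 ≠ 0
      intro h0
      exact hne (by rw [h0, mul_zero])

lemma coeff_natCast_mul (p : ℕ) (x : LaurentSeries R) (m : ℤ) :
    ((p : LaurentSeries R) * x).coeff m = (p : R) * x.coeff m := by
  have : (p : LaurentSeries R) = HahnSeries.C (p : R) := by
    rw [map_natCast]
  rw [this, HahnSeries.C_mul_eq_smul]
  rfl

variable {I : Type} [Fintype I]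

/-- an additive operator preserving power series, with constant term given by a matrix -/
def Good (E : AddMonoid.End (I → LaurentSeries R)) (M : Matrix I I R) : Prop :=
  ∀ x : I → LaurentSeries R, (∀ i, OrdGe 0 (x i)) →
    (∀ i, OrdGe 0 (E x i)) ∧ ∀ i, (E x i).coeff 0 = (M.mulVec (fun j => (x j).coeff 0)) i

lemma good_nb (Q : Matrix I I (LaurentSeries R)) (hQ : PolF Q) :
    Good (nbE (tht R) Q) (mco 0 Q) := by
  intro x hx
  have h1 : ∀ i, nbE (tht R) Q x i = tht R (x i) + ∑ j, Q i j * x j := fun i => rfl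
  refine ⟨fun i => ?_, fun i => ?_⟩
  · rw [h1]
    refine ordGe_add (ordGe_tht (hx i)) (ordGe_sum _ _ (fun j _ => ?_))
    have := ordGe_mul (hQ i j) (hx j)
    rwa [add_zero] at this
  · rw [h1, HahnSeries.coeff_add, tht_coeff, Int.cast_zero, zero_mul, zero_add,
      HahnSeries.coeff_sum]
    refine Finset.sum_congr rfl (fun j _ => ?_)
    exact coeff_zero_mul (hQ i j) (hx j)

lemma good_mul {E F : AddMonoid.End (I → LaurentSeries R)} {M N : Matrix I I R}
    (hE : Good E M) (hF : Good F N) : Good (E * F) (M * N) := by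
  intro x hx
  have h1 := hF x hx
  have h2 := hE (F x) h1.1
  refine ⟨h2.1, fun i => ?_⟩
  show (E (F x) i).coeff 0 = _
  rw [h2.2 i, ← Matrix.mulVec_mulVec]
  congr 2
  funext j
  exact h1.2 j

lemma good_one [DecidableEq I] : Good (1 : AddMonoid.End (I → LaurentSeries R)) (1 : Matrix I I R) := by
  intro x hx
  refine ⟨hx, fun i => ?_⟩
  rw [Matrix.one_mulVec]
  rfl

lemma good_pow [DecidableEq I] {E : AddMonoid.End (I → LaurentSeries R)} {M : Matrix I I R}
    (hE : Good E M) (n : ℕ) : Good (E ^ n) (M ^ n) := by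
  induction n with
  | zero => rw [pow_zero, pow_zero]; exact good_one
  | succ n ih => rw [pow_succ, pow_succ]; exact good_mul ih hE

lemma good_sub {E F : AddMonoid.End (I → LaurentSeries R)} {M N : Matrix I I R}
    (hE : Good E M) (hF : Good F N) : Good (E - F) (M - N) := by
  intro x hx
  have h1 := hF x hx
  have h2 := hE x hx
  refine ⟨fun i => ordGe_sub (h2.1 i) (h1.1 i), fun i => ?_⟩
  show (E x i - F x i).coeff 0 = _
  rw [HahnSeries.coeff_sub, h1.2 i, h2.2 i, Matrix.sub_mulVec]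
  rfl

end good

lemma chik_prime {q p : ℕ} [Fact p.Prime] (hpc : PcurvStmt) (hfrb : FrbStmt) {I : Type} [Fintype I]
    [DecidableEq I] (L : ℕ) (Q : Matrix I I (LL q ℤ_[p])) (hF : FAll p L (phO q ℤ_[p] p) Q)
    (hQ : PolF Q) (hp : 2 * L + 1 < p) (n : ℕ) (m : ℤ) (g : Gam q) (h : m ≠ 0 ∨ g ≠ 0) :
    (p : ℤ_[p]) ∣ (((mco 0 Q).charpoly.coeff n).coeff m).coeff g := by
  have hob := (hfrb q p).2.2.1
  have h1 := hpc p (OO q ℤ_[p]) (kO q ℤ_[p]) (phO q ℤ_[p] p) I L Q hob hF hp
  have hgood : Good ((nbE (tht (OO q ℤ_[p])) Q ^ p - nbE (tht (OO q ℤ_[p])) Q) ^ (2 * L + 1))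
      (((mco 0 Q) ^ p - mco 0 Q) ^ (2 * L + 1)) :=
    good_pow (good_sub (good_pow (good_nb Q hQ) p) (good_nb Q hQ)) _
  set N := mco 0 Q with hN
  set M := (N ^ p - N) ^ (2 * L + 1) with hM
  have h2 : ∀ i j, (p : OO q ℤ_[p]) ∣ M i j := by
    intro i j
    let x : I → LaurentSeries (OO q ℤ_[p]) := fun k =>
      HahnSeries.C ((Pi.single j (1 : OO q ℤ_[p]) : I → OO q ℤ_[p]) k)
    obtain ⟨y, hy⟩ := h1 x
    have h3 := (hgood x (fun k => ordGe_C _)).2 i
    rw [hy] at h3
    refine ⟨(y i).coeff 0, ?_⟩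
    have h4 : (((p : LL q ℤ_[p]) • y) i).coeff 0 = (p : OO q ℤ_[p]) * (y i).coeff 0 :=
      coeff_natCast_mul p (y i) 0
    rw [← h4, h3]
    have h5 : (fun k => (x k).coeff 0) = Pi.single j 1 := by
      funext k
      exact cC_zero _
    rw [h5, Matrix.mulVec_single_one]
    rfl
  -- reduction modulo `p`
  let r : ℤ_[p] →+* ZMod p := PadicInt.toZMod
  have h6 : ((N.map (mO q r)) ^ p - N.map (mO q r)) ^ (2 * L + 1) = 0 := by
    have h7 : ((mO q r).mapMatrix (m := I)) M = 0 := by
      refine Matrix.ext (fun i j => ?_)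
      obtain ⟨c, hc⟩ := h2 i j
      show mO q r (M i j) = 0
      rw [hc, map_mul, map_natCast]
      have : (p : OO q (ZMod p)) = 0 := by
        have h8 : (p : OO q (ZMod p)) = kO q (ZMod p) (p : ZMod p) := by
          rw [map_natCast]
        rw [h8, ZMod.natCast_self, map_zero]
      rw [this, zero_mul]
    rw [hM, map_pow, map_sub, map_pow] at h7
    exact h7
  have h9 := charpoly_lifts p (kO q (ZMod p)) (N.map (mO q r)) _ h6
  rw [Matrix.charpoly_map, Polynomial.lifts_iff_coeff_lifts] at h9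
  obtain ⟨a, ha⟩ := h9 n
  rw [Polynomial.coeff_map] at ha
  have h10 : ((mO q r (N.charpoly.coeff n)).coeff m).coeff g = 0 := by
    rw [← ha]
    show (((HahnSeries.C (HahnSeries.C a)) : OO q (ZMod p)).coeff m).coeff g = 0
    by_cases hm : m = 0
    · subst hm
      rw [cC_zero]
      exact cC_ne _ (by tauto)
    · rw [cC_ne _ hm, HahnSeries.coeff_zero]
  have h11 : r (((N.charpoly.coeff n).coeff m).coeff g) = 0 := h10
  have h12 : ((N.charpoly.coeff n).coeff m).coeff g ∈ RingHom.ker r := h11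
  have h13 : RingHom.ker r = IsLocalRing.maximalIdeal ℤ_[p] := PadicInt.ker_toZMod
  rw [h13, PadicInt.maximalIdeal_eq_span_p, Ideal.mem_span_singleton] at h12
  exact h12

/-- CHIK. -/
theorem chik (hpc : PcurvStmt) (huni : UniStmt) (hsplit : SplitStmt)
    (hfrb : FrbStmt) : ChikStmt := by
  classical
  intro q K _ _ I _ _ L Q hF hQ
  have hinG := hF.1
  obtain ⟨C, p1, hp1⟩ := hF.2 0
  -- lifts exist
  have hL : ∃ p2 : ℕ, ∀ (p : ℕ) [Fact p.Prime], p2 ≤ p → ∀ ι : K →+* ℚ_[p],
      ∃ Q' : Matrix I I (LL q ℤ_[p]), LiftM ι Q Q' := by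
    choose f hf using fun ij : I × I => (hinG ij.1 ij.2).1
    refine ⟨∑ ij, f ij, ?_⟩
    intro p _ hp ι
    have h1 : ∀ ij : I × I, ∃ y : LL q ℤ_[p], mL q ι (Q ij.1 ij.2) = mL q (zq p) y := by
      intro ij
      refine hf ij p (le_trans ?_ hp) ι
      exact Finset.single_le_sum (fun _ _ => Nat.zero_le _) (Finset.mem_univ ij)
    choose y hy using h1
    refine ⟨Matrix.of (fun i j => y (i, j)), ?_⟩
    refine Matrix.ext (fun i j => ?_)
    exact hy (i, j)
  obtain ⟨p2, hp2⟩ := hL
  set N := mco 0 Q with hN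
  have hkey : ∀ (n : ℕ) (m : ℤ) (g : Gam q), (m ≠ 0 ∨ g ≠ 0) →
      ((N.charpoly.coeff n).coeff m).coeff g = 0 := by
    intro n m g hmg
    by_contra hne
    obtain ⟨p3, hp3⟩ := huni K _ hne
    obtain ⟨p, hpp, hp, ⟨ι⟩⟩ := hsplit K (p1 + p2 + p3 + (2 * L + 2))
    obtain ⟨Q', hQ'⟩ := hp2 p (by omega) ι
    have h1 := (hp1 p (by omega) ι Q' hQ').1
    have hQ'e : ∀ i j, mL q ι (Q i j) = mL q (zq p) (Q' i j) := by
      intro i j
      exact congrFun (congrFun hQ' i) j
    have hpol : PolF Q' := fun i j => ordGe_lift (hQ'e i j) (hQ i j)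
    have h2 := chik_prime hpc hfrb L Q' h1 hpol (by omega) n m g hmg
    have h3 : (N.map (mO q ι)) = (mco 0 Q').map (mO q (zq p)) := by
      refine Matrix.ext (fun i j => ?_)
      exact lift_coeff (hQ'e i j) 0
    have h4 : mO q ι (N.charpoly.coeff n) = mO q (zq p) ((mco 0 Q').charpoly.coeff n) := by
      rw [← Polynomial.coeff_map, ← Polynomial.coeff_map, ← Matrix.charpoly_map,
        ← Matrix.charpoly_map, h3]
    have h5 : ι (((N.charpoly.coeff n).coeff m).coeff g) =
        zq p ((((mco 0 Q').charpoly.coeff n).coeff m).coeff g) := by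
      have h6 : ((mO q ι (N.charpoly.coeff n)).coeff m).coeff g =
        ((mO q (zq p) ((mco 0 Q').charpoly.coeff n)).coeff m).coeff g := by rw [h4]
      exact h6
    have h7 := hp3 p (by omega) ι
    rw [h5] at h7
    have h8 : ‖(((mco 0 Q').charpoly.coeff n).coeff m).coeff g‖ = 1 := h7
    rw [← PadicInt.isUnit_iff] at h8
    obtain ⟨c, hc⟩ := h2
    rw [hc] at h8
    have h9 := isUnit_of_mul_isUnit_left h8
    exact PadicInt.p_nonunit h9
  have hlift : N.charpoly ∈ Polynomial.lifts (kO q K) := by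
    rw [Polynomial.lifts_iff_coeff_lifts]
    intro n
    refine ⟨((N.charpoly.coeff n).coeff 0).coeff 0, ?_⟩
    show ((HahnSeries.C (HahnSeries.C _)) : OO q K) = _
    ext m g
    by_cases hm : m = 0
    · subst hm
      rw [cC_zero]
      by_cases hg : g = 0
      · subst hg
        rw [cC_zero]
      · rw [cC_ne _ hg, hkey n 0 g (Or.inr hg)]
    · rw [cC_ne _ hm, HahnSeries.coeff_zero, hkey n m g (Or.inl hm)]
  obtain ⟨χ, h1, _, h3⟩ := Polynomial.lifts_and_natDegree_eq_and_monic hlift (Matrix.charpoly_monic N)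
  exact ⟨χ, h3, h1.symm⟩

end Pool.Agent.Helper95_CM.H33

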