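import Pool.Agent.Helper33_CM.Ord

/-!
# CM project (MP_31342c_an), module FINC: the first column of `F` at `t = 0`
-/

set_option autoImplicit false
set_option linter.unusedSectionVars false

noncomputable section

namespace Pool.Agent.Helper95_CM.H33

open MvPolynomial

lemma lift_mul_one {q p : ℕ} [Fact p.Prime] {I K : Type} [Fintype I] [DecidableEq I] [Field K]
    {ι : K →+* ℚ_[p]} {U V : Matrix I I (LL q K)} {U' V' : Matrix I I (LL q ℤ_[p])}
    (hU : LiftM ι U U') (hV : LiftM ι V V') (h : U * V = 1) : U' * V' = 1 := by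
  apply Matrix.map_injective (mL_zq_inj (q := q) (p := p))
  show (U' * V').map (mL q (zq p)) = (1 : Matrix I I (LL q ℤ_[p])).map (mL q (zq p))
  rw [Matrix.map_mul, ← hU, ← hV, ← Matrix.map_mul, h,
    Matrix.map_one _ (map_zero _) (map_one _), Matrix.map_one _ (map_zero _) (map_one _)]

theorem finc (hpfm : PfmStmt) (hfrb : FrbStmt) : FincStmt := by
  classical
  intro n M D A K _ _ f U Ui Rv ξ i1 hG hU hξG hξ0 hξi hξ1 hVi N hN
  choose pe hpe using fun i => (hξG i).1
  refine ⟨3 + ∑ i, pe i, ?_⟩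
  intro p _ hp ι f' Dl U' Ui' Rv' hPL hPol i
  have hp3 : 3 ≤ p := by omega
  have hp0 : 0 < p := by omega
  have hlift : ∀ j, ∃ y : LL (qG n M) ℤ_[p], mL (qG n M) ι (ξ j) = mL (qG n M) (zq p) y := by
    intro j
    refine hpe j p (le_trans ?_ (by omega : ∑ i, pe i ≤ p)) ι
    exact Finset.single_le_sum (f := pe) (fun _ _ => Nat.zero_le _) (Finset.mem_univ j)
  choose ξ' hξ' using hlift
  set φ : LL (qG n M) ℤ_[p] →+* LL (qG n M) ℤ_[p] := phL (qG n M) ℤ_[p] p with hφ
  set Fm' := Fm A p (kL (qG n M) ℤ_[p]) N φ (cgen D f') Dl with hFm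
  have hcol := (hpfm n M p true A (LL (qG n M) ℤ_[p]) (kL (qG n M) ℤ_[p]) φ
    (thLt (qG n M) ℤ_[p]) (cgen D f') Dl N hG.hn (by have := hG.hM; omega) hp3 hN
    (hfrb (qG n M) p).1 hPL.dl hPL.un).2
  have hone : U' * Ui' = 1 := lift_mul_one hPL.lU hPL.lUi hU.gau.inv
  have hFv : Fv A D N p f' Dl U' Ui' = Ui' * Fm' * U'.map φ := rfl
  have hFU : Ui' * Fm' = Fv A D N p f' Dl U' Ui' * Ui'.map φ := by
    rw [hFv, Matrix.mul_assoc (Ui' * Fm'), ← Matrix.map_mul, hone,
      Matrix.map_one _ (map_zero _) (map_one _), Matrix.mul_one]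
  set t0 : A.Bas := topI A with ht0
  -- the two sums
  set v : LL (qG n M) ℤ_[p] := ∑ j, U' t0 j * ξ' j with hv
  have hvord : OrdGe 1 v := by
    refine ordGe_lift (ι := ι) (x := ∑ j, U t0 j * ξ j) ?_ hξ1
    rw [hv, map_sum, map_sum]
    refine Finset.sum_congr rfl (fun j _ => ?_)
    rw [map_mul, map_mul, hξ' j]
    congr 1
    exact congrFun (congrFun hPL.lU t0) j
  have hS : (∑ j, Fv A D N p f' Dl U' Ui' i j * φ (ξ' j)) =
      ∑ s, (Ui' * Fm') i s * φ (∑ j, U' s j * ξ' j) := by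
    rw [hFv]
    simp only [Matrix.mul_apply (M := Ui' * Fm'), Finset.sum_mul, map_sum, Finset.mul_sum, map_mul,
      Matrix.map_apply]
    rw [Finset.sum_comm]
    refine Finset.sum_congr rfl (fun s _ => Finset.sum_congr rfl (fun j _ => ?_))
    ring
  have hcol2 : ∀ s, s ≠ t0 → (p : LL (qG n M) ℤ_[p]) ∣ (Ui' * Fm') i s := by
    intro s hs
    rw [Matrix.mul_apply]
    refine Finset.dvd_sum (fun s' _ => ?_)
    refine Dvd.dvd.mul_left (hcol s ?_ s') _
    rcases A.lev s.1 s.2 with h | ⟨_, h⟩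
    · unfold Lb
      rw [if_pos rfl]
      omega
    · exact absurd (Subtype.ext h) hs
  have h1 : (p : LL (qG n M) ℤ_[p]) ∣ (∑ j, Fv A D N p f' Dl U' Ui' i j * φ (ξ' j)) -
      (Ui' * Fm') i t0 * φ v := by
    rw [hS, ← Finset.add_sum_erase _ _ (Finset.mem_univ t0), ← hv, add_sub_cancel_left]
    refine Finset.dvd_sum (fun s hs => ?_)
    rw [Finset.mem_erase] at hs
    exact (hcol2 s hs.1).mul_right _
  have h2 : (p : OO (qG n M) ℤ_[p]) ∣ ((Ui' * Fm') i t0 * φ v).coeff 0 := by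
    refine dvd_coeff_mul (α := 0) (β := (p : ℤ) * 1) ?_ (ordGe_phT hp0 _ hvord) 0 (by omega)
    intro m hm
    rw [hFU, Matrix.mul_apply, HahnSeries.coeff_sum]
    refine Finset.dvd_sum (fun j _ => ?_)
    rw [Matrix.map_apply]
    have h3 : OrdGe ((p : ℤ) * 0) (φ (Ui' j t0)) := by
      refine ordGe_phT hp0 _ (ordGe_lift (ι := ι) (x := Ui j t0) ?_ (hVi j))
      exact congrFun (congrFun hPL.lUi j) t0
    refine dvd_coeff_mul (α := 0) (β := (p : ℤ) * 0) ?_ h3 m (by omega)
    intro m' hm'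
    have := hPol i j m' hm'
    rw [pow_one] at this
    exact this
  have h3 : (p : OO (qG n M) ℤ_[p]) ∣ (∑ j, Fv A D N p f' Dl U' Ui' i j * φ (ξ' j)).coeff 0 := by
    have h4 := pow_natCast_dvd_coeff p 1
      ((∑ j, Fv A D N p f' Dl U' Ui' i j * φ (ξ' j)) - (Ui' * Fm') i t0 * φ v)
      (by rw [pow_one]; exact h1) 0
    rw [pow_one, HahnSeries.coeff_sub] at h4
    have := dvd_add h4 h2
    rwa [sub_add_cancel] at this
  have h5 : (p : OO (qG n M) ℤ_[p]) ∣ (∑ j, Fv A D N p f' Dl U' Ui' i j * φ (ξ' j)).coeff 0 -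
      (Fv A D N p f' Dl U' Ui' i i1).coeff 0 := by
    have h6 : (Fv A D N p f' Dl U' Ui' i i1).coeff 0 =
        ∑ j, (Fv A D N p f' Dl U' Ui' i j).coeff 0 * (φ (ξ' j)).coeff 0 := by
      have h7 : ∀ j, (φ (ξ' j)).coeff 0 = if j = i1 then 1 else 0 := by
        intro j
        have h8 := phT_coeff hp0 (phO (qG n M) ℤ_[p] p) (ξ' j) 0
        rw [mul_zero] at h8
        show (phT p (phO (qG n M) ℤ_[p] p) (ξ' j)).coeff 0 = _
        rw [h8]
        have h9 : (ξ' j).coeff 0 = if j = i1 then 1 else 0 := by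
          apply mO_zq_inj
          rw [← lift_coeff (hξ' j), hξi j]
          split_ifs
          · rw [map_one, map_one]
          · rw [map_zero, map_zero]
        rw [h9]
        split_ifs
        · rw [map_one]
        · rw [map_zero]
      simp only [h7, mul_ite, mul_one, mul_zero, Finset.sum_ite_eq', Finset.mem_univ, if_true]
    rw [h6, HahnSeries.coeff_sum, ← Finset.sum_sub_distrib]
    refine Finset.dvd_sum (fun j _ => ?_)
    refine coeff_zero_mul_mod _ _ _ ?_ ?_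
    · intro m hm
      have := hPol i j m hm
      rw [pow_one] at this
      exact this
    · intro m hm
      have h3 : OrdGe ((p : ℤ) * 0) (φ (ξ' j)) :=
        ordGe_phT hp0 _ (ordGe_lift (hξ' j) (hξ0 j))
      rw [h3 m (by omega)]
      exact dvd_zero _
  have := dvd_sub h3 h5
  rwa [sub_sub_cancel] at this

end Pool.Agent.Helper95_CM.H33

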