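import Pool.Agent.Helper95_CM.StE
import Pool.Agent.Helper95_CM.Asm

/-!
# CM project (MP_31342c_an): auxiliary lemmas on orders and lifts (helper33)
-/

set_option autoImplicit false
set_option linter.unusedSectionVars false

noncomputable section

namespace Pool.Agent.Helper95_CM.H33

open MvPolynomial

section ord
variable {R : Type} [CommRing R]

lemma dvd_coeff_mul {a : R} {x y : LaurentSeries R} {α β : ℤ}
    (hx : ∀ i, i < α → a ∣ x.coeff i) (hy : OrdGe β y) :
    ∀ i, i < α + β → a ∣ (x * y).coeff i := by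
  classical
  intro i hi
  rw [HahnSeries.coeff_mul]
  apply Finset.dvd_sum
  intro ij hij
  rw [Finset.mem_antidiagonal] at hij
  obtain ⟨_, _, h3⟩ := hij
  by_cases h : ij.1 < α
  · exact (hx _ h).mul_right _
  · rw [hy ij.2 (by omega), mul_zero]
    exact dvd_zero _

lemma ordGe_zero (m : ℤ) : OrdGe m (0 : LaurentSeries R) := by
  intro i _
  rw [HahnSeries.coeff_zero]

lemma ordGe_mul {a b : ℤ} {x y : LaurentSeries R} (hx : OrdGe a x) (hy : OrdGe b y) :
    OrdGe (a + b) (x * y) := by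
  intro i hi
  have := dvd_coeff_mul (a := (0 : R)) (fun i hi => by rw [hx i hi]) hy i hi
  exact zero_dvd_iff.1 this

lemma ordGe_add {a : ℤ} {x y : LaurentSeries R} (hx : OrdGe a x) (hy : OrdGe a y) :
    OrdGe a (x + y) := by
  intro i hi
  rw [HahnSeries.coeff_add, hx i hi, hy i hi, add_zero]

lemma ordGe_neg {a : ℤ} {x : LaurentSeries R} (hx : OrdGe a x) : OrdGe a (-x) := by
  intro i hi
  rw [HahnSeries.coeff_neg, hx i hi, neg_zero]

lemma ordGe_sub {a : ℤ} {x y : LaurentSeries R} (hx : OrdGe a x) (hy : OrdGe a y) :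
    OrdGe a (x - y) := by
  intro i hi
  rw [HahnSeries.coeff_sub, hx i hi, hy i hi, sub_zero]

lemma ordGe_sum {a : ℤ} {ι : Type} (t : Finset ι) (x : ι → LaurentSeries R)
    (h : ∀ i ∈ t, OrdGe a (x i)) : OrdGe a (∑ i ∈ t, x i) := by
  intro i hi
  rw [HahnSeries.coeff_sum]
  exact Finset.sum_eq_zero (fun j hj => h j hj i hi)

lemma ordGe_mono {a b : ℤ} (h : b ≤ a) {x : LaurentSeries R} (hx : OrdGe a x) : OrdGe b x :=
  fun i hi => hx i (lt_of_lt_of_le hi h)

lemma ordGe_C (a : R) : OrdGe 0 (HahnSeries.C a : LaurentSeries R) := by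
  intro i hi
  rw [HahnSeries.C_apply, HahnSeries.coeff_single_of_ne (ne_of_lt hi)]

lemma ordGe_phT {p : ℕ} (hp : 0 < p) (f : R →+* R) {x : LaurentSeries R} {m : ℤ}
    (hx : OrdGe m x) : OrdGe ((p : ℤ) * m) (phT p f x) := by
  intro i hi
  by_cases h : (p : ℤ) ∣ i
  · obtain ⟨k, rfl⟩ := h
    rw [phT_coeff hp, hx k ?_, map_zero]
    exact lt_of_mul_lt_mul_left hi (by positivity)
  · exact phT_coeff_ne hp f x i h

lemma ordGe_tht {m : ℤ} {x : LaurentSeries R} (hx : OrdGe m x) : OrdGe m (tht R x) := by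
  intro i hi
  rw [tht_coeff, hx i hi, mul_zero]

end ord

section lift
variable {q p : ℕ} [Fact p.Prime]

lemma mC_zq_inj : Function.Injective (mC q (zq p)) := by
  intro x y h
  ext g
  have h1 : (mC q (zq p) x).coeff g = (mC q (zq p) y).coeff g := by rw [h]
  exact (IsFractionRing.injective ℤ_[p] ℚ_[p]) h1

lemma mO_zq_inj : Function.Injective (mO q (zq p)) := by
  intro x y h
  ext m g
  have h1 : ((mO q (zq p) x).coeff m).coeff g = ((mO q (zq p) y).coeff m).coeff g := by rw [h]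
  exact (IsFractionRing.injective ℤ_[p] ℚ_[p]) h1

lemma mL_zq_inj : Function.Injective (mL q (zq p)) := by
  intro x y h
  ext m m' g
  have h1 : (((mL q (zq p) x).coeff m).coeff m').coeff g =
      (((mL q (zq p) y).coeff m).coeff m').coeff g := by rw [h]
  exact (IsFractionRing.injective ℤ_[p] ℚ_[p]) h1

lemma mL_coeff {R S : Type} [CommRing R] [CommRing S] (q : ℕ) (g : R →+* S) (x : LL q R) (m : ℤ) :
    (mL q g x).coeff m = mO q g (x.coeff m) := rfl

lemma lift_coeff {K : Type} [Field K] {ι : K →+* ℚ_[p]} {x : LL q K} {y : LL q ℤ_[p]}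
    (h : mL q ι x = mL q (zq p) y) (m : ℤ) : mO q ι (x.coeff m) = mO q (zq p) (y.coeff m) := by
  rw [← mL_coeff, h, mL_coeff]

lemma ordGe_lift {K : Type} [Field K] {ι : K →+* ℚ_[p]} {x : LL q K} {y : LL q ℤ_[p]}
    (h : mL q ι x = mL q (zq p) y) {m : ℤ} (hx : OrdGe m x) : OrdGe m y := by
  intro i hi
  apply mO_zq_inj
  rw [← lift_coeff h, hx i hi, map_zero, map_zero]

end lift

end Pool.Agent.Helper95_CM.H33
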